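import Mathlib

/-!
# Two ways of sampling a matching pair: the largest discrepancy is less than one
-/

namespace Pool.Agent.Results.MP_c9cfcf_pr.SupLtOne

open MeasureTheory ProbabilityTheory
open scoped ENNReal

variable {C : Type} [MeasurableSpace C]

/-- The law of an infinite sequence of independent samples with law `p`. -/
noncomputable def sampleLaw (p : PMF C) : Measure (ℕ → C) :=
  Measure.infinitePi (fun _ : ℕ => p.toMeasure)

/-- The index of the first sample whose color has occurred before. -/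
noncomputable def firstRepeat (ω : ℕ → C) : ℕ := sInf {n | ∃ m < n, ω m = ω n}

/-- The color which occurs twice first. -/
noncomputable def repeated (ω : ℕ → C) : C := ω (firstRepeat ω)

/-- Method 1: `P(X = i) = p_i ^ 2 / f_2`. -/
noncomputable def lawX (p : PMF C) (i : C) : ℝ := (p i).toReal ^ 2 / ∑' j, (p j).toReal ^ 2

/-- Method 2: `P(Y = i)`, the probability that the first repeated color is `i`. -/
noncomputable def lawY (p : PMF C) (i : C) : ℝ := (sampleLaw p).real {ω | repeated ω = i}

/-- The discrepancy `D(p)`: the total variation distance between the laws of `X` and `Y`. -/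
noncomputable def discrepancy (p : PMF C) : ℝ := (1 / 2) * ∑' i, |lawX p i - lawY p i|

set_option linter.unusedSectionVars false

section lemmas

variable [Countable C] [DiscreteMeasurableSpace C] (p : PMF C)

instance : IsProbabilityMeasure (sampleLaw p) := by
  unfold sampleLaw; infer_instance

lemma cyl (T : Finset ℕ) (A : ℕ → Set C) :
    sampleLaw p {ω | ∀ j ∈ T, ω j ∈ A j} = ∏ j ∈ T, p.toMeasure (A j) := by
  have : {ω : ℕ → C | ∀ j ∈ T, ω j ∈ A j} = Set.pi (↑T) A := by
    ext ω; simp [Set.mem_pi]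
  rw [this, sampleLaw, Measure.infinitePi_pi]
  intro i _
  exact MeasurableSet.of_discrete

lemma toMeasure_singleton (i : C) : p.toMeasure {i} = p i :=
  PMF.toMeasure_apply_singleton p i (MeasurableSet.of_discrete)

lemma two (i : C) {m n : ℕ} (h : m ≠ n) :
    sampleLaw p {ω | ω m = i ∧ ω n = i} = p i ^ 2 := by
  have := cyl p {m, n} (fun _ => {i})
  rw [Finset.prod_pair h, toMeasure_singleton] at this
  rw [sq, ← this]
  congr 1
  ext ω
  simp

lemma three (i : C) {m n b : ℕ} (h : m ≠ n) (hb : b ≠ m) (hb' : b ≠ n) :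
    sampleLaw p {ω | (ω m = i ∧ ω n = i) ∧ ω b = i} = p i ^ 3 := by
  have := cyl p {m, n, b} (fun _ => {i})
  rw [Finset.prod_const, toMeasure_singleton] at this
  have hc : ({m, n, b} : Finset ℕ).card = 3 := by
    rw [Finset.card_eq_three]
    exact ⟨m, n, b, h, hb.symm, hb'.symm, rfl⟩
  rw [hc] at this
  rw [← this]
  congr 1
  ext ω
  simp [and_assoc]

lemma four (i : C) {m n a b : ℕ} (h : m ≠ n) (ham : a ≠ m) (han : a ≠ n) (hbm : b ≠ m)
    (hbn : b ≠ n) (hab : a ≠ b) :
    sampleLaw p {ω | (ω m = i ∧ ω n = i) ∧ ω a = ω b} ≤ p i ^ 2 * ∑' c, p c ^ 2 := by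
  have hsub : {ω : ℕ → C | (ω m = i ∧ ω n = i) ∧ ω a = ω b}
      ⊆ ⋃ c : C, {ω | ∀ j ∈ ({m, n, a, b} : Finset ℕ), ω j ∈ (if j = a ∨ j = b then {c} else {i} : Set C)} := by
    intro ω hω
    simp only [Set.mem_ofPred_eq] at hω
    rw [Set.mem_iUnion]
    refine ⟨ω b, ?_⟩
    simp only [Set.mem_ofPred_eq, Finset.mem_insert, Finset.mem_singleton]
    rintro j (rfl | rfl | rfl | rfl)
    · rw [if_neg (by tauto)]; simpa using hω.1.1
    · rw [if_neg (by tauto)]; simpa using hω.1.2
    · rw [if_pos (by tauto)]; simpa using hω.2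
    · rw [if_pos (by tauto)]; simp
  refine (measure_mono hsub).trans ((measure_iUnion_le _).trans ?_)
  rw [← ENNReal.tsum_mul_left]
  apply ENNReal.tsum_le_tsum
  intro c
  rw [cyl p {m, n, a, b} (fun j => (if j = a ∨ j = b then {c} else {i} : Set C))]
  rw [Finset.prod_insert (by simp; tauto), Finset.prod_insert (by simp; tauto),
    Finset.prod_insert (by simp; tauto), Finset.prod_singleton]
  rw [if_neg (by tauto), if_neg (by tauto), if_pos (by tauto), if_pos (by tauto),
    toMeasure_singleton, toMeasure_singleton]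
  apply le_of_eq
  ring

/-- The event: `m < n`, samples `0, ..., n-1` distinct, samples `m` and `n` have color `i`. -/
def E (i : C) (n m : ℕ) : Set (ℕ → C) :=
  {ω | (ω m = i ∧ ω n = i) ∧ ∀ a < n, ∀ b < n, a ≠ b → ω a ≠ ω b}

lemma measurable_coord (a : ℕ) (c : C) : MeasurableSet {ω : ℕ → C | ω a = c} := by
  have h : MeasurableSet ((fun ω : ℕ → C => ω a) ⁻¹' {c}) :=
    (measurable_pi_apply a) MeasurableSet.of_discrete
  exact h

lemma measurable_eq (a b : ℕ) : MeasurableSet {ω : ℕ → C | ω a = ω b} := by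
  have : {ω : ℕ → C | ω a = ω b} = ⋃ c : C, ({ω | ω a = c} ∩ {ω | ω b = c}) := by
    ext ω
    simp only [Set.mem_ofPred_eq, Set.mem_iUnion, Set.mem_inter_iff]
    constructor
    · intro h; exact ⟨ω b, h, rfl⟩
    · rintro ⟨c, h1, h2⟩; rw [h1, h2]
  rw [this]
  refine MeasurableSet.iUnion (fun c => ?_)
  exact (measurable_coord a c).inter (measurable_coord b c)

lemma measurable_E (i : C) (n m : ℕ) : MeasurableSet (E i n m) := by
  have : E i n m = ({ω | ω m = i} ∩ {ω | ω n = i}) ∩
      ⋂ a : ℕ, ⋂ b : ℕ, {ω | a < n → b < n → a ≠ b → ω a ≠ ω b} := by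
    ext ω
    simp only [E, Set.mem_ofPred_eq, Set.mem_inter_iff, Set.mem_iInter]
    tauto
  rw [this]
  refine ((measurable_coord m i).inter (measurable_coord n i)).inter ?_
  refine MeasurableSet.iInter (fun a => MeasurableSet.iInter (fun b => ?_))
  by_cases h : a < n ∧ b < n ∧ a ≠ b
  · have : {ω : ℕ → C | a < n → b < n → a ≠ b → ω a ≠ ω b} = {ω | ω a = ω b}ᶜ := by
      ext ω
      simp only [Set.mem_ofPred_eq, Set.mem_compl_iff]
      constructor
      · intro h'; exact h' h.1 h.2.1 h.2.2
      · intro h' _ _ _; exact h'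
    rw [this]
    exact (measurable_eq a b).compl
  · have : {ω : ℕ → C | a < n → b < n → a ≠ b → ω a ≠ ω b} = Set.univ := by
      ext ω
      simp only [Set.mem_ofPred_eq, Set.mem_univ, iff_true]
      intro h1 h2 h3
      exact absurd ⟨h1, h2, h3⟩ h
    rw [this]
    exact MeasurableSet.univ

lemma firstRepeat_of_E {i : C} {n m : ℕ} (hm : m < n) {ω : ℕ → C} (h : ω ∈ E i n m) :
    firstRepeat ω = n := by
  unfold firstRepeat
  apply le_antisymm
  · apply Nat.sInf_le
    exact ⟨m, hm, by rw [h.1.1, h.1.2]⟩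
  · apply le_csInf
    · exact ⟨n, m, hm, by rw [h.1.1, h.1.2]⟩
    · rintro k ⟨l, hl, hlk⟩
      by_contra hk
      push Not at hk
      exact h.2 l (hl.trans hk) k hk (by omega) hlk

lemma E_subset (i : C) {n m : ℕ} (hm : m < n) :
    E i n m ⊆ {ω | repeated ω = i} := by
  intro ω hω
  simp only [Set.mem_ofPred_eq, repeated]
  rw [firstRepeat_of_E hm hω]
  exact hω.1.2

lemma E_disjoint (i : C) {n m n' m' : ℕ} (hm : m < n) (hm' : m' < n')
    (hne : (n, m) ≠ (n', m')) : Disjoint (E i n m) (E i n' m') := by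
  rw [Set.disjoint_left]
  intro ω h h'
  have h1 : n = n' := by rw [← firstRepeat_of_E hm h, ← firstRepeat_of_E hm' h']
  subst h1
  apply hne
  by_contra h2
  have h3 : m ≠ m' := by
    intro h4; exact h2 (by rw [h4])
  exact h.2 m hm m' hm' h3 (by rw [h.1.1, h'.1.1])

lemma sum_sq_toReal : (∑' c, p c ^ 2).toReal = ∑' c, (p c).toReal ^ 2 := by
  rw [ENNReal.tsum_toReal_eq]
  · simp_rw [ENNReal.toReal_pow]
  · intro c
    exact ENNReal.pow_ne_top (PMF.apply_ne_top p c)

lemma sum_sq_ne_top : (∑' c, p c ^ 2) ≠ ⊤ := by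
  have : ∑' c, p c ^ 2 ≤ ∑' c, p c := by
    apply ENNReal.tsum_le_tsum
    intro c
    rw [sq]
    calc p c * p c ≤ 1 * p c := by gcongr; exact PMF.coe_le_one p c
      _ = p c := one_mul _
  rw [PMF.tsum_coe] at this
  exact (this.trans_lt ENNReal.one_lt_top).ne

/-- lower bound for one event -/
lemma E_lower (i : C) {n m : ℕ} (hm : m < n) :
    (p i).toReal ^ 2 ≤ (sampleLaw p).real (E i n m)
      + (((n : ℝ) - 1) * (p i).toReal ^ 3
        + ((n : ℝ) - 1) ^ 2 * ((p i).toReal ^ 2 * ∑' c, (p c).toReal ^ 2)) := by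
  classical
  set T : Finset ℕ := (Finset.range n).erase m with hT
  have hTcard : T.card = n - 1 := by
    rw [hT, Finset.card_erase_of_mem (Finset.mem_range.mpr hm), Finset.card_range]
  have hTm : ∀ a ∈ T, a ≠ m ∧ a ≠ n := by
    intro a ha
    rw [hT, Finset.mem_erase, Finset.mem_range] at ha
    exact ⟨ha.1, by omega⟩
  have hsub : {ω : ℕ → C | ω m = i ∧ ω n = i} ⊆ (E i n m ∪
      ⋃ b ∈ T, {ω | (ω m = i ∧ ω n = i) ∧ ω b = i}) ∪
      ⋃ q ∈ T.offDiag, {ω | (ω m = i ∧ ω n = i) ∧ ω q.1 = ω q.2} := by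
    intro ω hω
    simp only [Set.mem_ofPred_eq] at hω
    by_cases h1 : ω ∈ E i n m
    · exact Or.inl (Or.inl h1)
    · have h2 : ∃ a < n, ∃ b < n, a ≠ b ∧ ω a = ω b := by
        by_contra hcon
        push Not at hcon
        exact h1 ⟨hω, hcon⟩
      obtain ⟨a, ha, b, hb, hab, heq⟩ := h2
      by_cases ham : a = m
      · left; right
        simp only [Set.mem_iUnion]
        refine ⟨b, ?_, hω, ?_⟩
        · rw [hT, Finset.mem_erase, Finset.mem_range]
          exact ⟨by rw [← ham]; exact hab.symm, hb⟩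
        · rw [← heq, ham, hω.1]
      · by_cases hbm : b = m
        · left; right
          simp only [Set.mem_iUnion]
          refine ⟨a, ?_, hω, ?_⟩
          · rw [hT, Finset.mem_erase, Finset.mem_range]
            exact ⟨ham, ha⟩
          · rw [heq, hbm, hω.1]
        · right
          simp only [Set.mem_iUnion]
          refine ⟨(a, b), ?_, hω, heq⟩
          rw [Finset.mem_offDiag, hT, Finset.mem_erase, Finset.mem_range, Finset.mem_erase,
            Finset.mem_range]
          exact ⟨⟨ham, ha⟩, ⟨hbm, hb⟩, hab⟩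
  have h2 := two p i (ne_of_lt hm)
  have hreal : (sampleLaw p).real {ω | ω m = i ∧ ω n = i} = (p i).toReal ^ 2 := by
    rw [measureReal_def, h2, ENNReal.toReal_pow]
  refine (le_of_eq hreal.symm).trans ?_
  refine (measureReal_mono hsub (by finiteness)).trans ?_
  refine (measureReal_union_le _ _).trans ?_
  refine (add_le_add_left (measureReal_union_le _ _) _).trans ?_
  rw [add_assoc]
  refine add_le_add le_rfl (add_le_add ?_ ?_)
  · refine (measureReal_biUnion_finset_le _ _).trans ?_
    have : ∀ b ∈ T, (sampleLaw p).real {ω | (ω m = i ∧ ω n = i) ∧ ω b = i}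
        ≤ (p i).toReal ^ 3 := by
      intro b hb
      rw [measureReal_def, three p i (ne_of_lt hm) (hTm b hb).1 (hTm b hb).2, ENNReal.toReal_pow]
    refine (Finset.sum_le_sum this).trans ?_
    rw [Finset.sum_const, nsmul_eq_mul, hTcard]
    rw [Nat.cast_sub (by omega)]
    simp
  · refine (measureReal_biUnion_finset_le _ _).trans ?_
    have : ∀ q ∈ T.offDiag, (sampleLaw p).real {ω | (ω m = i ∧ ω n = i) ∧ ω q.1 = ω q.2}
        ≤ (p i).toReal ^ 2 * ∑' c, (p c).toReal ^ 2 := by
      intro q hq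
      rw [Finset.mem_offDiag] at hq
      rw [measureReal_def, ← sum_sq_toReal, ← ENNReal.toReal_pow, ← ENNReal.toReal_mul]
      apply ENNReal.toReal_mono
      · exact ENNReal.mul_ne_top (ENNReal.pow_ne_top (PMF.apply_ne_top p i)) (sum_sq_ne_top p)
      · exact four p i (ne_of_lt hm) (hTm _ hq.1).1 (hTm _ hq.1).2 (hTm _ hq.2.1).1
          (hTm _ hq.2.1).2 hq.2.2
    refine (Finset.sum_le_sum this).trans ?_
    rw [Finset.sum_const, nsmul_eq_mul]
    apply mul_le_mul_of_nonneg_right
    · rw [Finset.offDiag_card, hTcard]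
      have h1 : (1 : ℕ) ≤ n := by omega
      have h3 : (((n - 1) * (n - 1) - (n - 1) : ℕ) : ℝ) ≤ (((n - 1) * (n - 1) : ℕ) : ℝ) := by
        exact_mod_cast Nat.sub_le _ _
      refine h3.trans ?_
      push_cast [Nat.cast_sub h1]
      rw [sq]
    · have : 0 ≤ ∑' c, (p c).toReal ^ 2 := tsum_nonneg (fun c => by positivity)
      positivity

lemma summable_sq : Summable (fun c => (p c).toReal ^ 2) := by
  have h1 : ∀ c, (p c).toReal ^ 2 = (p c ^ 2).toReal := fun c => by rw [ENNReal.toReal_pow]
  simp_rw [h1]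
  exact ENNReal.summable_toReal (sum_sq_ne_top p)

lemma le_sqrt (i : C) : (p i).toReal ≤ Real.sqrt (∑' c, (p c).toReal ^ 2) := by
  apply Real.le_sqrt_of_sq_le
  exact (summable_sq p).le_tsum i (fun c _ => by positivity)

lemma f2_pos : 0 < ∑' c, (p c).toReal ^ 2 := by
  obtain ⟨i, hi⟩ := p.support_nonempty
  rw [PMF.mem_support_iff] at hi
  have h1 : 0 < (p i).toReal := ENNReal.toReal_pos hi (PMF.apply_ne_top p i)
  exact lt_of_lt_of_le (by positivity) ((summable_sq p).le_tsum i (fun c _ => by positivity))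

/-- the key lower bound `P(Y = i) ≥ (5/162) P(X = i)` -/
lemma lawY_lower (i : C) : 5 / 162 * lawX p i ≤ lawY p i := by
  set f2 := ∑' c, (p c).toReal ^ 2 with hf2
  have hf2pos : 0 < f2 := f2_pos p
  set s := Real.sqrt f2 with hs
  have hspos : 0 < s := Real.sqrt_pos.mpr hf2pos
  have hssq : s ^ 2 = f2 := Real.sq_sqrt hf2pos.le
  set N : ℕ := ⌊1 / (3 * s)⌋₊ + 1 with hN
  have hN1 : ((N : ℝ) - 1) * s ≤ 1 / 3 := by
    have h1 : ((⌊1 / (3 * s)⌋₊ : ℕ) : ℝ) ≤ 1 / (3 * s) := Nat.floor_le (by positivity)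
    have h2 : (N : ℝ) - 1 = ((⌊1 / (3 * s)⌋₊ : ℕ) : ℝ) := by rw [hN]; push_cast; ring
    rw [h2]
    calc ((⌊1 / (3 * s)⌋₊ : ℕ) : ℝ) * s ≤ 1 / (3 * s) * s := by gcongr
      _ = 1 / 3 := by field_simp
  have hN2 : 1 / (3 * s) < N := by
    have := Nat.lt_floor_add_one (1 / (3 * s))
    rw [hN]; push_cast; exact this
  -- lower bound for each event
  have hE : ∀ n m, n ≤ N → m < n → 5 / 9 * (p i).toReal ^ 2 ≤ (sampleLaw p).real (E i n m) := by
    intro n m hn hm
    have h1 := E_lower p i hm
    rw [← hf2, ← hssq] at h1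
    set x := (p i).toReal with hx
    have hx0 : 0 ≤ x := ENNReal.toReal_nonneg
    have hxs : x ≤ s := le_sqrt p i
    have hn1 : (0 : ℝ) ≤ (n : ℝ) - 1 := by
      have : (1 : ℝ) ≤ n := by exact_mod_cast (by omega : 1 ≤ n)
      linarith
    have hnN : (n : ℝ) - 1 ≤ (N : ℝ) - 1 := by
      have : (n : ℝ) ≤ N := by exact_mod_cast hn
      linarith
    have hns : ((n : ℝ) - 1) * s ≤ 1 / 3 := le_trans (by gcongr) hN1
    have h2 : ((n : ℝ) - 1) * x ^ 3 ≤ 1 / 3 * x ^ 2 := by
      calc ((n : ℝ) - 1) * x ^ 3 = (((n : ℝ) - 1) * x) * x ^ 2 := by ring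
        _ ≤ (((n : ℝ) - 1) * s) * x ^ 2 := by gcongr
        _ ≤ 1 / 3 * x ^ 2 := by gcongr
    have h3 : ((n : ℝ) - 1) ^ 2 * (x ^ 2 * s ^ 2) ≤ 1 / 9 * x ^ 2 := by
      calc ((n : ℝ) - 1) ^ 2 * (x ^ 2 * s ^ 2) = (((n : ℝ) - 1) * s) ^ 2 * x ^ 2 := by ring
        _ ≤ (1 / 3) ^ 2 * x ^ 2 := by gcongr
        _ = 1 / 9 * x ^ 2 := by ring
    linarith
  -- union of the events
  set I : Finset (ℕ × ℕ) := ((Finset.range (N + 1)) ×ˢ (Finset.range (N + 1))).filter
    (fun q => q.2 < q.1) with hI
  have hsub : (⋃ q ∈ I, E i q.1 q.2) ⊆ {ω | repeated ω = i} := by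
    intro ω hω
    simp only [Set.mem_iUnion] at hω
    obtain ⟨q, hq, hω⟩ := hω
    rw [hI, Finset.mem_filter] at hq
    exact E_subset i hq.2 hω
  have hle : (sampleLaw p).real (⋃ q ∈ I, E i q.1 q.2) ≤ lawY p i :=
    measureReal_mono hsub (by finiteness)
  rw [measureReal_biUnion_finset] at hle
  rotate_left
  · intro q hq q' hq' hne
    rw [Finset.mem_coe, hI, Finset.mem_filter] at hq hq'
    exact E_disjoint i hq.2 hq'.2 hne
  · intro q _
    exact measurable_E i q.1 q.2
  have hcard : (N : ℝ) ^ 2 / 2 ≤ I.card := by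
    have h1 : I.card = ∑ n ∈ Finset.range (N + 1), n := by
      rw [hI, Finset.card_filter, Finset.sum_product]
      apply Finset.sum_congr rfl
      intro n hn
      rw [Finset.mem_range] at hn
      simp only [Finset.sum_boole, Nat.cast_id]
      have : (Finset.range (N + 1)).filter (fun b => b < n) = Finset.range n := by
        ext b
        simp only [Finset.mem_filter, Finset.mem_range]
        omega
      rw [this, Finset.card_range]
    have h2 := Finset.sum_range_id_mul_two (N + 1)
    rw [← h1] at h2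
    have h3 : (I.card : ℝ) * 2 = (N + 1) * N := by
      have : (I.card * 2 : ℕ) = (N + 1) * N := by simpa using h2
      exact_mod_cast this
    have h4 : (0 : ℝ) ≤ N := by positivity
    nlinarith
  have hsum : (I.card : ℝ) * (5 / 9 * (p i).toReal ^ 2) ≤ lawY p i := by
    refine le_trans ?_ hle
    rw [← nsmul_eq_mul]
    apply Finset.card_nsmul_le_sum
    intro q hq
    rw [hI, Finset.mem_filter, Finset.mem_product, Finset.mem_range] at hq
    exact hE q.1 q.2 (by omega) hq.2
  refine le_trans ?_ hsum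
  have hNs : 1 / 9 ≤ (N : ℝ) ^ 2 * f2 := by
    have h1 : 1 / 3 ≤ (N : ℝ) * s := by
      rw [div_lt_iff₀ (by positivity)] at hN2
      linarith
    calc (1 : ℝ) / 9 = (1 / 3) ^ 2 := by norm_num
      _ ≤ ((N : ℝ) * s) ^ 2 := by gcongr
      _ = (N : ℝ) ^ 2 * f2 := by rw [mul_pow, hssq]
  unfold lawX
  rw [← hf2, ← mul_div_assoc, div_le_iff₀ hf2pos]
  have hx2 : 0 ≤ (p i).toReal ^ 2 := by positivity
  have h5 : 1 / 18 ≤ (I.card : ℝ) * f2 := by nlinarith
  nlinarith

lemma measurable_repeated (i : C) : MeasurableSet {ω : ℕ → C | repeated ω = i} := by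
  have hR : ∀ n : ℕ, MeasurableSet {ω : ℕ → C | ∃ m < n, ω m = ω n} := by
    intro n
    have : {ω : ℕ → C | ∃ m < n, ω m = ω n} = ⋃ m : ℕ, ⋃ _ : m < n, {ω | ω m = ω n} := by
      ext ω; simp
    rw [this]
    exact MeasurableSet.iUnion (fun m => MeasurableSet.iUnion (fun _ => measurable_eq m n))
  have hfirst : ∀ n : ℕ, MeasurableSet {ω : ℕ → C | firstRepeat ω = n} := by
    intro n
    have hset : {ω : ℕ → C | firstRepeat ω = n} =
        ({ω : ℕ → C | ∃ m < n, ω m = ω n} ∩ ⋂ k : ℕ, ⋂ _ : k < n, {ω | ∃ m < k, ω m = ω k}ᶜ)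
        ∪ (if n = 0 then (⋂ k : ℕ, {ω : ℕ → C | ∃ m < k, ω m = ω k}ᶜ) else ∅) := by
      ext ω
      simp only [Set.mem_ofPred_eq, Set.mem_union, Set.mem_inter_iff, Set.mem_iInter,
        Set.mem_compl_iff]
      constructor
      · intro h
        by_cases hne : {n | ∃ m < n, ω m = ω n}.Nonempty
        · left
          have h1 := Nat.sInf_mem hne
          have h2 : sInf {n | ∃ m < n, ω m = ω n} = n := h
          rw [h2] at h1
          refine ⟨h1, fun k hk hcon => ?_⟩
          have h3 : sInf {n | ∃ m < n, ω m = ω n} ≤ k := Nat.sInf_le hcon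
          omega
        · right
          rw [Set.not_nonempty_iff_eq_empty] at hne
          have h1 : n = 0 := by
            rw [← h]; unfold firstRepeat; rw [hne]; simp
          rw [if_pos h1]
          simp only [Set.mem_iInter, Set.mem_compl_iff, Set.mem_ofPred_eq]
          intro k hk
          have : k ∈ {n | ∃ m < n, ω m = ω n} := hk
          rw [hne] at this
          exact this
      · rintro (⟨h1, h2⟩ | h)
        · unfold firstRepeat
          apply le_antisymm
          · exact Nat.sInf_le h1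
          · apply le_csInf ⟨n, h1⟩
            intro k hk
            by_contra hcon
            push Not at hcon
            exact h2 k hcon hk
        · by_cases hn : n = 0
          · rw [if_pos hn] at h
            simp only [Set.mem_iInter, Set.mem_compl_iff, Set.mem_ofPred_eq] at h
            have : {n | ∃ m < n, ω m = ω n} = ∅ := by
              ext k
              simp only [Set.mem_ofPred_eq, Set.mem_empty_iff_false, iff_false]
              exact h k
            unfold firstRepeat
            rw [this, hn]; simp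
          · rw [if_neg hn] at h
            exact absurd h (Set.notMem_empty _)
    rw [hset]
    refine MeasurableSet.union ((hR n).inter (MeasurableSet.iInter (fun k =>
      MeasurableSet.iInter (fun _ => (hR k).compl)))) ?_
    split_ifs
    · exact MeasurableSet.iInter (fun k => (hR k).compl)
    · exact MeasurableSet.empty
  have : {ω : ℕ → C | repeated ω = i} = ⋃ n : ℕ, ({ω | firstRepeat ω = n} ∩ {ω | ω n = i}) := by
    ext ω
    simp only [Set.mem_ofPred_eq, Set.mem_iUnion, Set.mem_inter_iff, repeated]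
    constructor
    · intro h; exact ⟨firstRepeat ω, rfl, h⟩
    · rintro ⟨n, h1, h2⟩; rw [h1, h2]
  rw [this]
  exact MeasurableSet.iUnion (fun n => (hfirst n).inter (measurable_coord n i))

lemma lawY_summable_le : Summable (lawY p) ∧ ∑' i, lawY p i = 1 := by
  have h1 : ∑' i, sampleLaw p {ω | repeated ω = i} = 1 := by
    rw [← measure_iUnion]
    · have : (⋃ i : C, {ω : ℕ → C | repeated ω = i}) = Set.univ := by
        ext ω; simp
      rw [this, measure_univ]
    · intro i j hij
      rw [Function.onFun, Set.disjoint_left]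
      intro ω h h'
      exact hij (by rw [← (h : repeated ω = i), ← (h' : repeated ω = j)])
    · exact fun i => measurable_repeated i
  have h2 : ∀ i, lawY p i = (sampleLaw p {ω | repeated ω = i}).toReal := fun i => rfl
  constructor
  · simp_rw [funext h2]
    exact ENNReal.summable_toReal (by rw [h1]; exact ENNReal.one_ne_top)
  · simp_rw [h2]
    rw [← ENNReal.tsum_toReal_eq (fun i => by finiteness), h1, ENNReal.toReal_one]

lemma lawX_summable : Summable (lawX p) ∧ ∑' i, lawX p i = 1 := by
  have h := (summable_sq p).div_const (∑' j, (p j).toReal ^ 2)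
  refine ⟨h, ?_⟩
  unfold lawX
  rw [tsum_div_const, div_self (f2_pos p).ne']

/-- The discrepancy is bounded away from one. -/
lemma discrepancy_le : discrepancy p ≤ 157 / 162 := by
  obtain ⟨hX, hX1⟩ := lawX_summable p
  obtain ⟨hY, hY1⟩ := lawY_summable_le p
  have hXnn : ∀ i, 0 ≤ lawX p i := fun i => by
    unfold lawX
    have := (f2_pos p).le
    positivity
  have hYnn : ∀ i, 0 ≤ lawY p i := fun i => measureReal_nonneg
  have hbound : ∀ i, |lawX p i - lawY p i| ≤ lawX p i + lawY p i - 2 * (5 / 162 * lawX p i) := by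
    intro i
    have h1 := lawY_lower p i
    have h2 := hXnn i
    rw [abs_le]
    constructor <;> linarith
  have hsum : Summable (fun i => lawX p i + lawY p i - 2 * (5 / 162 * lawX p i)) :=
    (hX.add hY).sub ((hX.mul_left _).mul_left _)
  have h1 : ∑' i, |lawX p i - lawY p i| ≤ ∑' i, (lawX p i + lawY p i - 2 * (5 / 162 * lawX p i)) :=
    Summable.tsum_le_tsum hbound ((hX.sub hY).abs) hsum
  rw [(hX.add hY).tsum_sub ((hX.mul_left _).mul_left _), hX.tsum_add hY, tsum_mul_left,
    tsum_mul_left, hX1, hY1] at h1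
  unfold discrepancy
  linarith

end lemmas

/-- `ℓ₀`: the supremum of the discrepancies of all distributions on countable color sets. -/
noncomputable def ell0 : ℝ :=
  sSup {x : ℝ | ∃ (C : Type) (_ : Countable C) (_ : MeasurableSpace C)
    (_ : DiscreteMeasurableSpace C) (p : PMF C), x = discrepancy p}

/-- **`ℓ₀ < 1`**; more precisely every distribution `p` on a countable color set has
`D(p) ≤ 157 / 162`, because `P(Y = i) ≥ (5 / 162) P(X = i)` for every color `i`. -/
theorem result :
    ell0 < 1 ∧ ∀ (C : Type) [Countable C] [MeasurableSpace C] [DiscreteMeasurableSpace C]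
      (p : PMF C), discrepancy p ≤ 157 / 162 := by
  have h : ∀ (C : Type) [Countable C] [MeasurableSpace C] [DiscreteMeasurableSpace C]
      (p : PMF C), discrepancy p ≤ 157 / 162 := fun C _ _ _ p => discrepancy_le p
  refine ⟨?_, h⟩
  have h1 : ell0 ≤ 157 / 162 := by
    apply csSup_le
    · exact ⟨_, Unit, inferInstance, inferInstance, inferInstance, PMF.pure (), rfl⟩
    · rintro x ⟨C, h1, h2, h3, p, rfl⟩
      exact h C p
  linarith

end Pool.Agent.Results.MP_c9cfcf_pr.SupLtOne
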